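import Mathlib

/-!
A sieve bound: if `S` is a set of natural numbers whose primes have
`∑_{p ∈ S} p^{-s} ≥ δ log (1/(s-1)) - C₀` as `s → 1+`, then the number of `c ≤ X` having no
prime of `S` as an exact (multiplicity one) divisor is `O(X / (log X)^δ)`.
-/

open Finset Filter Topology

namespace Pool.Agent.H53SCD

/-- `c` is positive and no prime of `S` divides it exactly once. -/
def Adm (S : Set ℕ) (c : ℕ) : Prop := 0 < c ∧ ∀ p ∈ S, p.Prime → ¬ (p ∣ c ∧ ¬ p ^ 2 ∣ c)

theorem Adm.ordCompl {S : Set ℕ} {c : ℕ} (h : Adm S c) {p : ℕ} (hp : p.Prime) :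
    Adm S (c / p ^ c.factorization p) := by
  have hc0 : c ≠ 0 := h.1.ne'
  refine ⟨Nat.ordCompl_pos p hc0, fun r hrS hr hrc => ?_⟩
  obtain ⟨h1, h2⟩ := hrc
  have hdvd : c / p ^ c.factorization p ∣ c := Nat.ordCompl_dvd c p
  have hne : r ≠ p := by
    rintro rfl
    exact (Nat.not_dvd_ordCompl hr hc0) h1
  refine h.2 r hrS hr ⟨h1.trans hdvd, fun h3 => h2 ?_⟩
  have hcop : Nat.Coprime (r ^ 2) (p ^ c.factorization p) :=
    Nat.Coprime.pow _ _ ((Nat.coprime_primes hr hp).2 hne)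
  have : c = p ^ c.factorization p * (c / p ^ c.factorization p) :=
    (Nat.ordProj_mul_ordCompl_eq_self c p).symm
  rw [this] at h3
  exact hcop.dvd_of_dvd_mul_left h3

theorem log_eq_sum (c : ℕ) (hc : c ≠ 0) :
    Real.log (c : ℝ) = ∑ p ∈ c.primeFactors, Real.log ((p ^ c.factorization p : ℕ) : ℝ) := by
  have h := Nat.prod_factorization_pow_eq_self hc
  rw [← Real.log_prod]
  · congr 1
    conv_lhs => rw [← h]
    rw [Finsupp.prod, Nat.support_factorization]
    push_cast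
    rfl
  · intro p hp
    have := (Nat.prime_of_mem_primeFactors hp).pos
    positivity

open Classical in
theorem sum_log_le (S : Set ℕ) (X : ℕ) :
    ∑ c ∈ (Icc 1 X).filter (Adm S), Real.log (c : ℝ) ≤
      ∑ m ∈ (Icc 1 X).filter (Adm S),
        ∑ q ∈ (Icc 1 (X / m)).filter IsPrimePow, Real.log (q : ℝ) := by
  have h1 : ∑ c ∈ (Icc 1 X).filter (Adm S), Real.log (c : ℝ) =
      ∑ c ∈ (Icc 1 X).filter (Adm S), ∑ p ∈ c.primeFactors,
        Real.log ((p ^ c.factorization p : ℕ) : ℝ) := by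
    refine Finset.sum_congr rfl fun c hc => log_eq_sum c ?_
    have := (Finset.mem_filter.1 hc).2.1
    omega
  rw [h1, Finset.sum_sigma', Finset.sum_sigma']
  set s := ((Icc 1 X).filter (Adm S)).sigma fun c => c.primeFactors with hs
  set t := ((Icc 1 X).filter (Adm S)).sigma
    fun m => (Icc 1 (X / m)).filter IsPrimePow with ht
  let e : (_ : ℕ) × ℕ → (_ : ℕ) × ℕ :=
    fun x => ⟨x.1 / x.2 ^ x.1.factorization x.2, x.2 ^ x.1.factorization x.2⟩
  have hinj : Set.InjOn e s := by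
    intro x hx y hy hxy
    obtain ⟨c, p⟩ := x
    obtain ⟨c', p'⟩ := y
    simp only [hs, Finset.coe_sigma, Set.mem_sigma_iff, Finset.mem_coe] at hx hy
    simp only [e, Sigma.mk.injEq, heq_eq_eq] at hxy
    obtain ⟨h1, h2⟩ := hxy
    have hc : c = c' := by
      rw [← Nat.ordProj_mul_ordCompl_eq_self c p, ← Nat.ordProj_mul_ordCompl_eq_self c' p', h1, h2]
    subst hc
    have hp := Nat.prime_of_mem_primeFactors hx.2
    have hp' := Nat.prime_of_mem_primeFactors hy.2
    have hk : c.factorization p ≠ 0 := by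
      have := Nat.mem_primeFactors.1 hx.2
      exact (hp.factorization_pos_of_dvd this.2.2 this.2.1).ne'
    have : p ∣ p' ^ c.factorization p' := by
      rw [← h2]; exact dvd_pow_self p hk
    have := (Nat.prime_dvd_prime_iff_eq hp hp').1 (hp.dvd_of_dvd_pow this)
    subst this
    rfl
  have hmap : ∀ x ∈ s, e x ∈ t := by
    intro x hx
    obtain ⟨c, p⟩ := x
    simp only [hs, Finset.mem_sigma, Finset.mem_filter, Finset.mem_Icc] at hx
    obtain ⟨⟨⟨hc1, hcX⟩, hA⟩, hpc⟩ := hx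
    have hp := Nat.prime_of_mem_primeFactors hpc
    have hc0 : c ≠ 0 := by omega
    have hk : c.factorization p ≠ 0 := by
      have := Nat.mem_primeFactors.1 hpc
      exact (hp.factorization_pos_of_dvd this.2.2 this.2.1).ne'
    simp only [e, ht, Finset.mem_sigma, Finset.mem_filter, Finset.mem_Icc]
    have hmul := Nat.ordProj_mul_ordCompl_eq_self c p
    have hpos := Nat.ordCompl_pos p hc0
    refine ⟨⟨⟨hpos, (Nat.div_le_self _ _).trans hcX⟩, hA.ordCompl hp⟩,
      ⟨Nat.pos_of_ne_zero (pow_ne_zero _ hp.pos.ne'), ?_⟩, ?_⟩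
    · rw [Nat.le_div_iff_mul_le hpos, hmul]
      exact hcX
    · exact hp.isPrimePow.pow hk
  calc ∑ x ∈ s, Real.log ((x.2 ^ x.1.factorization x.2 : ℕ) : ℝ)
      = ∑ x ∈ s.image e, Real.log (x.2 : ℝ) := by
        rw [Finset.sum_image hinj]
    _ ≤ ∑ x ∈ t, Real.log (x.2 : ℝ) := by
        refine Finset.sum_le_sum_of_subset_of_nonneg ?_ ?_
        · intro y hy
          obtain ⟨x, hx, rfl⟩ := Finset.mem_image.1 hy
          exact hmap x hx
        · intro x _ _
          exact Real.log_natCast_nonneg _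

open Classical in
theorem sum_log_primePow_le : ∃ C : ℝ, 0 ≤ C ∧ ∀ y : ℕ,
    ∑ q ∈ (Icc 1 y).filter IsPrimePow, Real.log (q : ℝ) ≤ C * y := by
  refine ⟨Real.log 4 + 32 / Real.log 2, by positivity, fun y => ?_⟩
  rcases Nat.eq_zero_or_pos y with rfl | hy
  · simp
  have hy1 : (1 : ℝ) ≤ y := by exact_mod_cast hy
  have hsplit : ∑ q ∈ (Icc 1 y).filter IsPrimePow, Real.log (q : ℝ) ≤
      (∑ q ∈ (Ioc 0 y).filter Nat.Prime, Real.log (q : ℝ)) +
      ∑ q ∈ (Ioc 0 y).filter (fun q => ¬ q.Prime),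
        (Real.log y / Real.log 2) * ArithmeticFunction.vonMangoldt q := by
    have hI : Icc 1 y = Ioc 0 y := by ext; simp [Nat.succ_le_iff]
    rw [hI, Finset.sum_filter, Finset.sum_filter, Finset.sum_filter, ← Finset.sum_add_distrib]
    refine Finset.sum_le_sum fun q hq => ?_
    rw [Finset.mem_Ioc] at hq
    have hlog2 : 0 < Real.log 2 := Real.log_pos (by norm_num)
    have hlogy : 0 ≤ Real.log y := Real.log_natCast_nonneg _
    by_cases hpr : q.Prime
    · simp [hpr, hpr.isPrimePow]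
    · by_cases hpp : IsPrimePow q
      · simp only [hpp, hpr, if_true, if_false, not_false_eq_true, zero_add]
        have hv : Real.log 2 ≤ ArithmeticFunction.vonMangoldt q := by
          rw [ArithmeticFunction.vonMangoldt_apply, if_pos hpp]
          apply Real.log_le_log (by norm_num)
          have : 2 ≤ q.minFac := (Nat.minFac_prime (by
            rintro rfl; exact not_isPrimePow_one hpp)).two_le
          exact_mod_cast this
        have hq1 : Real.log q ≤ Real.log y :=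
          Real.log_le_log (by exact_mod_cast hq.1) (by exact_mod_cast hq.2)
        calc Real.log q ≤ Real.log y := hq1
          _ = Real.log y / Real.log 2 * Real.log 2 := by field_simp
          _ ≤ Real.log y / Real.log 2 * ArithmeticFunction.vonMangoldt q := by gcongr
      · simp only [hpp, hpr, if_false, not_false_eq_true, zero_add, if_true]
        have := ArithmeticFunction.vonMangoldt_nonneg (n := q)
        positivity
  have h1 : ∑ q ∈ (Ioc 0 y).filter Nat.Prime, Real.log (q : ℝ) ≤ Real.log 4 * y := by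
    have := Chebyshev.theta_le_log4_mul_x (x := (y : ℝ)) (by positivity)
    rw [Chebyshev.theta, Nat.floor_natCast] at this
    exact this
  have h2 : ∑ q ∈ (Ioc 0 y).filter (fun q => ¬ q.Prime),
        (Real.log y / Real.log 2) * ArithmeticFunction.vonMangoldt q ≤ 32 / Real.log 2 * y := by
    rw [← Finset.mul_sum]
    have h3 := Chebyshev.psi_sub_theta_eq_sum_not_prime (y : ℝ)
    rw [Nat.floor_natCast] at h3
    have h4 := Chebyshev.psi_sub_theta_le hy1
    rw [h3] at h4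
    have hlogy : 0 ≤ Real.log y := Real.log_natCast_nonneg _
    have hlog2 : 0 < Real.log 2 := Real.log_pos (by norm_num)
    have h5 : Real.log y ≤ 4 * (y : ℝ) ^ ((1 : ℝ) / 4) := by
      have := Real.log_le_rpow_div (x := (y : ℝ)) (ε := 1 / 4) (by positivity) (by norm_num)
      calc Real.log y ≤ (y : ℝ) ^ ((1 : ℝ) / 4) / (1 / 4) := this
        _ = _ := by ring
    have h6 : Real.log y ^ 2 ≤ 16 * √(y : ℝ) := by
      calc Real.log y ^ 2 ≤ (4 * (y : ℝ) ^ ((1 : ℝ) / 4)) ^ 2 := by gcongr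
        _ = 16 * √(y : ℝ) := by
          rw [mul_pow, ← Real.rpow_natCast, ← Real.rpow_natCast, ← Real.rpow_mul (by positivity),
            Real.sqrt_eq_rpow]
          norm_num
    calc Real.log y / Real.log 2 * _
        ≤ Real.log y / Real.log 2 * (2 * √(y : ℝ) * Real.log y) := by
          apply mul_le_mul_of_nonneg_left _ (by positivity)
          exact h4
      _ = 2 * √(y : ℝ) * Real.log y ^ 2 / Real.log 2 := by ring
      _ ≤ 2 * √(y : ℝ) * (16 * √(y : ℝ)) / Real.log 2 := by gcongr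
      _ = 32 / Real.log 2 * (√(y : ℝ) * √(y : ℝ)) := by ring
      _ = _ := by rw [Real.mul_self_sqrt (by positivity)]
  calc _ ≤ _ := hsplit
    _ ≤ Real.log 4 * y + 32 / Real.log 2 * y := add_le_add h1 h2
    _ = _ := by ring

open Classical in
/-- Step 1: `log X * #{c ≤ X admissible} ≤ C X ∑_{m ≤ X admissible} 1/m`. -/
theorem card_mul_log_le : ∃ C : ℝ, 0 ≤ C ∧ ∀ (S : Set ℕ) (X : ℕ), 1 ≤ X →
    (((Icc 1 X).filter (Adm S)).card : ℝ) * Real.log X ≤
      C * X * ∑ m ∈ (Icc 1 X).filter (Adm S), 1 / (m : ℝ) := by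
  obtain ⟨C, hC0, hC⟩ := sum_log_primePow_le
  refine ⟨C + 1, by positivity, fun S X hX => ?_⟩
  have hX0 : (0 : ℝ) < X := by exact_mod_cast hX
  have h1 : (((Icc 1 X).filter (Adm S)).card : ℝ) * Real.log X =
      ∑ c ∈ (Icc 1 X).filter (Adm S), (Real.log (X / c) + Real.log c) := by
    rw [← nsmul_eq_mul, ← Finset.sum_const]
    refine Finset.sum_congr rfl fun c hc => ?_
    have hc0 : (0 : ℝ) < c := by
      have := (Finset.mem_filter.1 hc).2.1
      exact_mod_cast this
    rw [Real.log_div hX0.ne' hc0.ne']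
    ring
  rw [h1, Finset.sum_add_distrib]
  have h2 : ∑ c ∈ (Icc 1 X).filter (Adm S), Real.log (X / c) ≤
      X * ∑ m ∈ (Icc 1 X).filter (Adm S), 1 / (m : ℝ) := by
    rw [Finset.mul_sum]
    refine Finset.sum_le_sum fun c hc => ?_
    have hc0 : (0 : ℝ) < c := by
      have := (Finset.mem_filter.1 hc).2.1
      exact_mod_cast this
    calc Real.log (X / c) ≤ X / c := (Real.log_le_self (by positivity))
      _ = _ := by ring
  have h3 : ∑ c ∈ (Icc 1 X).filter (Adm S), Real.log (c : ℝ) ≤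
      C * X * ∑ m ∈ (Icc 1 X).filter (Adm S), 1 / (m : ℝ) := by
    refine (sum_log_le S X).trans ?_
    rw [Finset.mul_sum]
    refine Finset.sum_le_sum fun m hm => ?_
    have hm0 : (0 : ℝ) < m := by
      have := (Finset.mem_filter.1 hm).2.1
      exact_mod_cast this
    calc _ ≤ C * ((X / m : ℕ) : ℝ) := hC _
      _ ≤ C * ((X : ℝ) / m) := by
        gcongr
        exact Nat.cast_div_le
      _ = _ := by ring
  calc _ ≤ _ := add_le_add h2 h3
    _ = _ := by ring

theorem adm_mul {S : Set ℕ} {m n : ℕ} (h : Nat.Coprime m n) :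
    Adm S (m * n) ↔ Adm S m ∧ Adm S n := by
  have key : ∀ {a b : ℕ}, Nat.Coprime a b → ∀ r : ℕ, r.Prime → r ∣ a → (r ^ 2 ∣ a * b ↔ r ^ 2 ∣ a) := by
    intro a b hab r _ hra
    constructor
    · intro h2
      have hrb : Nat.Coprime r b := Nat.Coprime.coprime_dvd_left hra hab
      exact (Nat.Coprime.pow_left 2 hrb).dvd_of_dvd_mul_right h2
    · intro h2
      exact h2.mul_right b
  constructor
  · rintro ⟨h0, h1⟩
    have hm : 0 < m := Nat.pos_of_ne_zero (by rintro rfl; simp at h0)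
    have hn : 0 < n := Nat.pos_of_ne_zero (by rintro rfl; simp at h0)
    refine ⟨⟨hm, fun r hr hp hh => h1 r hr hp ⟨hh.1.mul_right n, fun h2 => hh.2 ?_⟩⟩,
      ⟨hn, fun r hr hp hh => h1 r hr hp ⟨hh.1.mul_left m, fun h2 => hh.2 ?_⟩⟩⟩
    · exact (key h r hp hh.1).1 h2
    · rw [mul_comm] at h2
      exact (key h.symm r hp hh.1).1 h2
  · rintro ⟨⟨hm, h1⟩, ⟨hn, h2⟩⟩
    refine ⟨Nat.mul_pos hm hn, fun r hr hp hh => ?_⟩
    rcases (hp.dvd_mul).1 hh.1 with h3 | h3
    · exact h1 r hr hp ⟨h3, fun h4 => hh.2 (h4.mul_right n)⟩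
    · exact h2 r hr hp ⟨h3, fun h4 => hh.2 (h4.mul_left m)⟩

theorem adm_one (S : Set ℕ) : Adm S 1 :=
  ⟨one_pos, fun r _ hp hh => hp.one_lt.ne' (Nat.dvd_one.1 hh.1)⟩

theorem adm_prime_pow {S : Set ℕ} {p : ℕ} (hp : p.Prime) (e : ℕ) :
    Adm S (p ^ e) ↔ ¬ (p ∈ S ∧ e = 1) := by
  constructor
  · rintro ⟨_, h1⟩ ⟨hpS, rfl⟩
    refine h1 p hpS hp ⟨by simp, fun h2 => ?_⟩
    rw [Nat.pow_dvd_pow_iff_le_right hp.one_lt] at h2
    omega
  · intro h
    refine ⟨Nat.pos_of_ne_zero (pow_ne_zero _ hp.pos.ne'), fun r hr hrp hh => ?_⟩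
    have hrp' : r = p := (Nat.prime_dvd_prime_iff_eq hrp hp).1 (hrp.dvd_of_dvd_pow hh.1)
    subst hrp'
    have he : e ≠ 1 := fun he => h ⟨hr, he⟩
    have he0 : e ≠ 0 := by
      rintro rfl
      exact hp.one_lt.ne' (Nat.dvd_one.1 (by simpa using hh.1))
    exact hh.2 (pow_dvd_pow _ (by omega))

open Classical in
/-- `c ↦ c^{-s}` on admissible `c`. -/
noncomputable def fS (S : Set ℕ) (s : ℝ) (n : ℕ) : ℝ := if Adm S n then (n : ℝ) ^ (-s) else 0

theorem fS_nonneg (S : Set ℕ) (s : ℝ) (n : ℕ) : 0 ≤ fS S s n := by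
  unfold fS; split_ifs <;> positivity

theorem fS_le (S : Set ℕ) (s : ℝ) (n : ℕ) : fS S s n ≤ (n : ℝ) ^ (-s) := by
  unfold fS; split_ifs
  · exact le_rfl
  · positivity

theorem summable_rpow {s : ℝ} (hs : 1 < s) : Summable (fun n : ℕ => (n : ℝ) ^ (-s)) :=
  Real.summable_nat_rpow.2 (by linarith)

theorem summable_fS (S : Set ℕ) {s : ℝ} (hs : 1 < s) : Summable (fS S s) :=
  Summable.of_nonneg_of_le (fS_nonneg S s) (fS_le S s) (summable_rpow hs)

theorem hasProd_zeta {s : ℝ} (hs : 1 < s) :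
    HasProd (fun p : Nat.Primes => ∑' e : ℕ, (((p : ℕ) ^ e : ℕ) : ℝ) ^ (-s))
      (∑' n : ℕ, (n : ℝ) ^ (-s)) := by
  refine EulerProduct.eulerProduct_hasProd (f := fun n : ℕ => (n : ℝ) ^ (-s)) (by simp) ?_ ?_ ?_
  · intro m n _
    push_cast
    rw [Real.mul_rpow (by positivity) (by positivity)]
  · exact (summable_rpow hs).norm
  · simp only [Nat.cast_zero]
    exact Real.zero_rpow (by linarith)

theorem hasProd_fS (S : Set ℕ) {s : ℝ} (hs : 1 < s) :
    HasProd (fun p : Nat.Primes => ∑' e : ℕ, fS S s ((p : ℕ) ^ e)) (∑' n : ℕ, fS S s n) := by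
  refine EulerProduct.eulerProduct_hasProd (f := fS S s) ?_ ?_ ?_ ?_
  · simp [fS, adm_one]
  · intro m n hmn
    unfold fS
    rw [adm_mul hmn]
    by_cases hm : Adm S m
    · by_cases hn : Adm S n
      · simp only [hm, hn, and_self, if_true]
        push_cast
        rw [Real.mul_rpow (by positivity) (by positivity)]
      · simp [hm, hn]
    · simp [hm]
  · exact (summable_fS S hs).norm
  · simp [fS, Adm]

theorem local_le (S : Set ℕ) {s : ℝ} (hs : 1 < s) (p : Nat.Primes) :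
    ∑' e : ℕ, fS S s ((p : ℕ) ^ e) ≤ (∑' e : ℕ, (((p : ℕ) ^ e : ℕ) : ℝ) ^ (-s)) *
      Real.exp (- Set.indicator S (fun m : ℕ => (m : ℝ) ^ (-s)) (p : ℕ) + ((p : ℕ) : ℝ) ^ (-(2 : ℝ))) := by
  have hp2 : (2 : ℝ) ≤ ((p : ℕ) : ℝ) := by exact_mod_cast p.2.two_le
  set x : ℝ := ((p : ℕ) : ℝ) ^ (-s) with hx
  have hx0 : 0 < x := by positivity
  have hx1 : x < 1 := Real.rpow_lt_one_of_one_lt_of_neg (by linarith) (by linarith)
  have hpow : ∀ e : ℕ, (((p : ℕ) ^ e : ℕ) : ℝ) ^ (-s) = x ^ e := by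
    intro e
    push_cast
    rw [← Real.rpow_natCast, ← Real.rpow_mul (by positivity), mul_comm, Real.rpow_mul (by positivity),
      Real.rpow_natCast]
  have hgeo : ∑' e : ℕ, (((p : ℕ) ^ e : ℕ) : ℝ) ^ (-s) = (1 - x)⁻¹ := by
    simp_rw [hpow]
    exact tsum_geometric_of_lt_one hx0.le hx1
  have hpos : 0 < (1 - x)⁻¹ := inv_pos.2 (by linarith)
  rw [hgeo]
  by_cases hpS : (p : ℕ) ∈ S
  · have h1 : ∑' e : ℕ, fS S s ((p : ℕ) ^ e) = (1 - x)⁻¹ - x := by
      have h2 : ∀ e : ℕ, fS S s ((p : ℕ) ^ e) = x ^ e - (if e = 1 then x else 0) := by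
        intro e
        unfold fS
        rw [adm_prime_pow p.2]
        by_cases he : e = 1
        · subst he; simp [hpS]
        · simp only [hpS, he, and_false, not_false_eq_true, if_true, if_false, sub_zero]
          exact hpow e
      simp_rw [h2]
      rw [Summable.tsum_sub (summable_geometric_of_lt_one hx0.le hx1)
        (summable_of_ne_finset_zero (s := {1}) (by intro b hb; simp at hb; simp [hb])),
        tsum_geometric_of_lt_one hx0.le hx1, tsum_ite_eq]
    rw [h1, Set.indicator_of_mem hpS]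
    have h3 : (1 - x)⁻¹ - x = (1 - x)⁻¹ * (1 - x + x ^ 2) := by
      have hne : 1 - x ≠ 0 := by linarith
      field_simp
      ring
    rw [h3]
    apply mul_le_mul_of_nonneg_left _ hpos.le
    have h4 : x ^ 2 ≤ ((p : ℕ) : ℝ) ^ (-(2 : ℝ)) := by
      rw [hx, ← Real.rpow_natCast, ← Real.rpow_mul (by positivity)]
      apply Real.rpow_le_rpow_of_exponent_le (by linarith)
      push_cast
      linarith
    have h5 := Real.add_one_le_exp (- x + ((p : ℕ) : ℝ) ^ (-(2 : ℝ)))
    linarith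
  · have h1 : ∑' e : ℕ, fS S s ((p : ℕ) ^ e) = (1 - x)⁻¹ := by
      have h2 : ∀ e : ℕ, fS S s ((p : ℕ) ^ e) = x ^ e := by
        intro e
        unfold fS
        rw [adm_prime_pow p.2]
        simp only [hpS, false_and, not_false_eq_true, if_true]
        exact hpow e
      simp_rw [h2]
      exact tsum_geometric_of_lt_one hx0.le hx1
    rw [h1, Set.indicator_of_notMem hpS]
    have : 1 ≤ Real.exp (-0 + ((p : ℕ) : ℝ) ^ (-(2 : ℝ))) := by
      apply Real.one_le_exp
      have : 0 < ((p : ℕ) : ℝ) ^ (-(2 : ℝ)) := by positivity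
      linarith
    exact le_mul_of_one_le_right hpos.le this

/-- The sum of `p^{-2}` over primes. -/
noncomputable def K2 : ℝ := ∑' p : Nat.Primes, ((p : ℕ) : ℝ) ^ (-(2 : ℝ))

theorem summable_K2 : Summable (fun p : Nat.Primes => ((p : ℕ) : ℝ) ^ (-(2 : ℝ))) :=
  (summable_rpow (by norm_num : (1 : ℝ) < 2)).comp_injective Subtype.val_injective

theorem summable_ind (S : Set ℕ) {s : ℝ} (hs : 1 < s) : Summable (fun p : Nat.Primes =>
    Set.indicator S (fun m : ℕ => (m : ℝ) ^ (-s)) (p : ℕ)) :=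
  ((summable_rpow hs).indicator S).comp_injective Subtype.val_injective

theorem tsum_fS_le (S : Set ℕ) {s : ℝ} (hs : 1 < s) :
    ∑' n : ℕ, fS S s n ≤ (∑' n : ℕ, (n : ℝ) ^ (-s)) *
      Real.exp (- (∑' p : Nat.Primes, Set.indicator S (fun m : ℕ => (m : ℝ) ^ (-s)) (p : ℕ)) + K2) := by
  have hE : HasSum (fun p : Nat.Primes => - Set.indicator S (fun m : ℕ => (m : ℝ) ^ (-s)) (p : ℕ)
      + ((p : ℕ) : ℝ) ^ (-(2 : ℝ)))
      (- (∑' p : Nat.Primes, Set.indicator S (fun m : ℕ => (m : ℝ) ^ (-s)) (p : ℕ)) + K2) :=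
    (summable_ind S hs).hasSum.neg.add summable_K2.hasSum
  have h1 := hasProd_fS S hs
  have h2 := hasProd_zeta hs
  rw [HasProd] at h1 h2
  rw [HasSum] at hE
  have h3 := h2.mul (Real.continuous_exp.continuousAt.tendsto.comp hE)
  refine le_of_tendsto_of_tendsto' h1 h3 fun T => ?_
  simp only [Function.comp_apply]
  rw [Real.exp_sum, ← Finset.prod_mul_distrib]
  refine Finset.prod_le_prod (fun p _ => tsum_nonneg fun e => fS_nonneg _ _ _)
    (fun p _ => local_le S hs p)

open Classical in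
theorem sum_inv_le (S : Set ℕ) (X : ℕ) (hX : 2 ≤ X) :
    ∑ m ∈ (Icc 1 X).filter (Adm S), 1 / (m : ℝ) ≤
      Real.exp 1 * ∑' n : ℕ, fS S (1 + 1 / Real.log X) n := by
  have hlog : 0 < Real.log X := Real.log_pos (by exact_mod_cast hX)
  have hs : 1 < 1 + 1 / Real.log X := by
    have : 0 < 1 / Real.log X := by positivity
    linarith
  have h1 : ∑ m ∈ (Icc 1 X).filter (Adm S), 1 / (m : ℝ) ≤
      ∑ m ∈ (Icc 1 X).filter (Adm S), Real.exp 1 * fS S (1 + 1 / Real.log X) m := by
    refine Finset.sum_le_sum fun m hm => ?_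
    obtain ⟨hm1, hA⟩ := Finset.mem_filter.1 hm
    rw [Finset.mem_Icc] at hm1
    have hm0 : (0 : ℝ) < m := by exact_mod_cast hm1.1
    have hmX : (m : ℝ) ≤ X := by exact_mod_cast hm1.2
    unfold fS
    rw [if_pos hA]
    have h2 : (1 : ℝ) / m = (m : ℝ) ^ (1 / Real.log X) * (m : ℝ) ^ (-(1 + 1 / Real.log X)) := by
      rw [← Real.rpow_add hm0]
      have : 1 / Real.log X + -(1 + 1 / Real.log X) = (-1 : ℝ) := by ring
      rw [this, Real.rpow_neg_one, one_div]
    rw [h2]
    apply mul_le_mul_of_nonneg_right _ (by positivity)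
    rw [Real.rpow_def_of_pos hm0]
    apply Real.exp_le_exp.2
    have : Real.log m ≤ Real.log X := Real.log_le_log hm0 hmX
    rw [mul_one_div]
    exact (div_le_one hlog).2 this
  refine h1.trans ?_
  rw [← Finset.mul_sum]
  apply mul_le_mul_of_nonneg_left _ (Real.exp_pos 1).le
  exact (summable_fS S hs).sum_le_tsum _ (fun n _ => fS_nonneg _ _ _)

theorem zeta_le : ∀ᶠ s in nhdsWithin (1 : ℝ) (Set.Ioi 1),
    ∑' n : ℕ, (n : ℝ) ^ (-s) ≤ 2 / (s - 1) := by
  have h := tendsto_sub_mul_tsum_nat_rpow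
  have h1 := h.eventually (eventually_le_nhds (by norm_num : (1 : ℝ) < 2))
  filter_upwards [h1, self_mem_nhdsWithin] with s hs h2
  rw [Set.mem_Ioi] at h2
  have h3 : 0 < s - 1 := by linarith
  rw [le_div_iff₀ h3]
  calc _ = (s - 1) * ∑' (n : ℕ), 1 / (n : ℝ) ^ s := by
        rw [mul_comm]
        congr 2
        ext n
        rw [Real.rpow_neg (by positivity), one_div]
    _ ≤ 2 := hs

theorem tendsto_one_add_inv_log :
    Tendsto (fun X : ℕ => 1 + 1 / Real.log X) atTop (nhdsWithin (1 : ℝ) (Set.Ioi 1)) := by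
  rw [tendsto_nhdsWithin_iff]
  constructor
  · have h1 : Tendsto (fun X : ℕ => Real.log (X : ℝ)) atTop atTop :=
      Real.tendsto_log_atTop.comp tendsto_natCast_atTop_atTop
    have h2 : Tendsto (fun X : ℕ => 1 / Real.log (X : ℝ)) atTop (nhds 0) := by
      simpa [one_div, Function.comp_def] using tendsto_inv_atTop_zero.comp h1
    simpa using h2.const_add 1
  · filter_upwards [eventually_ge_atTop 2] with X hX
    have hlog : 0 < Real.log X := Real.log_pos (by exact_mod_cast hX)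
    have : 0 < 1 / Real.log X := by positivity
    simp only [Set.mem_Ioi]
    linarith

open Classical in
theorem natCard_eq (S : Set ℕ) (X : ℕ) :
    Nat.card {c : ℕ | 0 < c ∧ c ≤ X ∧ ∀ p ∈ S, p.Prime → ¬ (p ∣ c ∧ ¬ p ^ 2 ∣ c)} =
      ((Icc 1 X).filter (Adm S)).card := by
  have : {c : ℕ | 0 < c ∧ c ≤ X ∧ ∀ p ∈ S, p.Prime → ¬ (p ∣ c ∧ ¬ p ^ 2 ∣ c)} =
      (((Icc 1 X).filter (Adm S) : Finset ℕ) : Set ℕ) := by
    ext c
    simp only [Set.mem_ofPred_eq, Finset.coe_filter, Finset.mem_Icc, Adm]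
    constructor
    · rintro ⟨h1, h2, h3⟩
      exact ⟨⟨h1, h2⟩, h1, h3⟩
    · rintro ⟨⟨h1, h2⟩, _, h3⟩
      exact ⟨h1, h2, h3⟩
  rw [this, Nat.card_coe_set_eq, Set.ncard_coe_finset]

/-- **The sieve bound.** -/
theorem sieve_bound (S : Set ℕ) (δ C₀ : ℝ) (hδ : 0 < δ)
    (hS : ∀ᶠ s in nhdsWithin (1 : ℝ) (Set.Ioi 1), δ * Real.log (1 / (s - 1)) - C₀ ≤
      ∑' p : Nat.Primes, Set.indicator S (fun m : ℕ => (m : ℝ) ^ (-s)) (p : ℕ)) :
    ∃ C : ℝ, ∀ X : ℕ, 2 ≤ X →
      (Nat.card {c : ℕ | 0 < c ∧ c ≤ X ∧ ∀ p ∈ S, p.Prime → ¬ (p ∣ c ∧ ¬ p ^ 2 ∣ c)} : ℝ)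
        ≤ C * X / Real.log X ^ δ := by
  classical
  obtain ⟨C₁, hC₁, hmain⟩ := card_mul_log_le
  have hev := tendsto_one_add_inv_log.eventually (hS.and zeta_le)
  obtain ⟨X₀, hX₀⟩ := eventually_atTop.1 hev
  set D : ℝ := C₁ * Real.exp 1 * 2 * Real.exp (C₀ + K2) with hD
  have hD0 : 0 ≤ D := by positivity
  set Y : ℕ := max X₀ 2 with hY
  refine ⟨D + Real.log Y ^ δ, fun X hX => ?_⟩
  rw [natCard_eq]
  have hlog : 0 < Real.log X := Real.log_pos (by exact_mod_cast hX)
  have hlogδ : 0 < Real.log X ^ δ := Real.rpow_pos_of_pos hlog _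
  have hXpos : (0 : ℝ) < X := by positivity
  rw [le_div_iff₀ hlogδ]
  have hlogY : 0 ≤ Real.log Y ^ δ := Real.rpow_nonneg (Real.log_natCast_nonneg _) _
  by_cases hXY : X₀ ≤ X
  · obtain ⟨h1, h2⟩ := hX₀ X hXY
    have hs : 1 < 1 + 1 / Real.log X := by
      have : 0 < 1 / Real.log X := by positivity
      linarith
    have h3 := tsum_fS_le S hs
    have hsub : 1 + 1 / Real.log X - 1 = 1 / Real.log X := by ring
    rw [hsub] at h1 h2
    have h4 : 1 / (1 / Real.log X) = Real.log X := by field_simp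
    have h5 : 2 / (1 / Real.log X) = 2 * Real.log X := by field_simp
    rw [h4] at h1
    rw [h5] at h2
    have h6 : ∑' n : ℕ, fS S (1 + 1 / Real.log X) n ≤
        2 * Real.log X * (Real.exp (C₀ + K2) * Real.log X ^ (-δ)) := by
      refine h3.trans ?_
      apply mul_le_mul h2 _ (Real.exp_pos _).le (by positivity)
      rw [Real.rpow_def_of_pos hlog, ← Real.exp_add]
      apply Real.exp_le_exp.2
      linarith
    have h7 := sum_inv_le S X hX
    have h8 := hmain S X (by omega)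
    have h9 : (((Icc 1 X).filter (Adm S)).card : ℝ) * Real.log X ≤
        C₁ * X * (Real.exp 1 * (2 * Real.log X * (Real.exp (C₀ + K2) * Real.log X ^ (-δ)))) := by
      refine h8.trans ?_
      apply mul_le_mul_of_nonneg_left _ (by positivity)
      refine h7.trans ?_
      exact mul_le_mul_of_nonneg_left h6 (Real.exp_pos 1).le
    have h10 : (((Icc 1 X).filter (Adm S)).card : ℝ) ≤ D * X * Real.log X ^ (-δ) := by
      have : (((Icc 1 X).filter (Adm S)).card : ℝ) * Real.log X ≤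
          (D * X * Real.log X ^ (-δ)) * Real.log X := by
        refine h9.trans (le_of_eq ?_)
        rw [hD]; ring
      exact le_of_mul_le_mul_right this hlog
    calc (((Icc 1 X).filter (Adm S)).card : ℝ) * Real.log X ^ δ
        ≤ (D * X * Real.log X ^ (-δ)) * Real.log X ^ δ :=
          mul_le_mul_of_nonneg_right h10 hlogδ.le
      _ = D * X * (Real.log X ^ (-δ) * Real.log X ^ δ) := by ring
      _ = D * X := by
          rw [← Real.rpow_add hlog]; simp
      _ ≤ (D + Real.log Y ^ δ) * X := by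
          apply mul_le_mul_of_nonneg_right _ hXpos.le
          linarith
  · have hcard : (((Icc 1 X).filter (Adm S)).card : ℝ) ≤ X := by
      have := Finset.card_filter_le (Icc 1 X) (Adm S)
      rw [Nat.card_Icc] at this
      have h2 : ((Icc 1 X).filter (Adm S)).card ≤ X := by omega
      exact_mod_cast h2
    have hle : Real.log X ^ δ ≤ Real.log Y ^ δ := by
      apply Real.rpow_le_rpow hlog.le _ hδ.le
      apply Real.log_le_log hXpos
      have : X ≤ Y := by omega
      exact_mod_cast this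
    calc (((Icc 1 X).filter (Adm S)).card : ℝ) * Real.log X ^ δ
        ≤ X * Real.log Y ^ δ := by
          apply mul_le_mul hcard hle hlogδ.le hXpos.le
      _ ≤ (D + Real.log Y ^ δ) * X := by
          rw [mul_comm]
          apply mul_le_mul_of_nonneg_right _ hXpos.le
          linarith

end Pool.Agent.H53SCD
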